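import Pool.Agent.Helper20.NP.Stmts

set_option autoImplicit false

/-!
# Central elementary abelian subgroups meeting the last ramification group
-/

namespace Pool.Agent.Helper20.NP

open Pool.Agent.Helper21.DN

open scoped Pointwise

universe u

section pure

variable {G : Type u} [Group G]

/-- a complement of `⟨z⟩` in a central elementary abelian group -/
lemma tj_compl [Finite G] (p : ℕ) [Fact p.Prime] (J : Subgroup G) (hJc : J ≤ Subgroup.center G)
    (hJp : ∀ x ∈ J, x ^ p = 1) (z : G) (hz : z ∈ J) (hz1 : z ≠ 1) :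
    ∃ N : Subgroup G, N ≤ J ∧ z ∉ N ∧ ∀ g ∈ J, ∃ i : ℤ, ∃ n ∈ N, g = z ^ i * n := by
  have hfin : {N : Subgroup G | N ≤ J ∧ z ∉ N}.Finite := Set.toFinite _
  obtain ⟨N, hN⟩ := hfin.exists_maximal ⟨⊥, bot_le, fun h => hz1 (Subgroup.mem_bot.1 h)⟩
  refine ⟨N, hN.prop.1, hN.prop.2, fun g hg => ?_⟩
  by_cases hgN : g ∈ N
  · exact ⟨0, g, hgN, by simp⟩
  have hcg : g ∈ Subgroup.center G := hJc hg
  have hnorm : (Subgroup.zpowers g).Normal := by
    constructor
    intro x hx y
    have hxc : x ∈ Subgroup.center G := (Subgroup.zpowers_le.2 hcg) hx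
    rw [Subgroup.mem_center_iff] at hxc
    rw [hxc y, mul_inv_cancel_right]
    exact hx
  have h1 : z ∈ N ⊔ Subgroup.zpowers g := by
    by_contra hcon
    have h2 : N ⊔ Subgroup.zpowers g ≤ J := sup_le hN.prop.1 (Subgroup.zpowers_le.2 hg)
    have h3 := hN.le_of_ge (y := N ⊔ Subgroup.zpowers g) ⟨h2, hcon⟩ le_sup_left
    exact hgN (h3 (Subgroup.mem_sup_right (Subgroup.mem_zpowers g)))
  have h4 : z ∈ ((N : Set G) * (Subgroup.zpowers g : Set G)) := by
    rw [← Subgroup.mul_normal]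
    exact h1
  obtain ⟨n, hn, y, hy, hny⟩ := Set.mem_mul.1 h4
  obtain ⟨k, rfl⟩ := Subgroup.mem_zpowers_iff.1 hy
  have hgp : g ^ p = 1 := hJp g hg
  have hpk : ¬ (p : ℤ) ∣ k := by
    rintro ⟨m, rfl⟩
    rw [zpow_mul, zpow_natCast, hgp, one_zpow, mul_one] at hny
    rw [← hny] at hN
    exact hN.prop.2 hn
  obtain ⟨a, b, hab⟩ : ∃ a b : ℤ, k * a + (p : ℤ) * b = 1 := by
    have hp : Prime (p : ℤ) := Nat.prime_iff_prime_int.1 Fact.out
    have hcop : IsCoprime (p : ℤ) k := (Prime.coprime_iff_not_dvd hp).2 hpk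
    obtain ⟨u, v, huv⟩ := hcop
    exact ⟨v, u, by linarith⟩
  refine ⟨a, (n⁻¹) ^ a, N.zpow_mem (N.inv_mem hn) a, ?_⟩
  have hzc : Commute z n⁻¹ := by
    have : z ∈ Subgroup.center G := hJc hz
    exact ((Subgroup.mem_center_iff.1 this) n⁻¹).symm
  have h5 : g ^ k = z * n⁻¹ := by
    rw [← hny]
    have : Commute n (g ^ k) := by
      have h6 : g ^ k ∈ Subgroup.center G := Subgroup.zpow_mem _ hcg k
      exact (Subgroup.mem_center_iff.1 h6) n
    rw [this.eq, mul_inv_cancel_right]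
  calc g = g ^ (k * a + (p : ℤ) * b) := by rw [hab, zpow_one]
    _ = (g ^ k) ^ a := by
      rw [zpow_add, zpow_mul, zpow_mul, zpow_natCast, hgp, one_zpow, mul_one]
    _ = z ^ a * (n⁻¹) ^ a := by rw [h5, hzc.mul_zpow]

lemma tj_zmem {p : ℕ} [Fact p.Prime] {z : G} (hzp : z ^ p = 1) {N : Subgroup G} (hzN : z ∉ N)
    (i : ℤ) (hi : z ^ i ∈ N) : (p : ℤ) ∣ i := by
  by_contra hcon
  have hp : Prime (p : ℤ) := Nat.prime_iff_prime_int.1 Fact.out
  obtain ⟨u, v, huv⟩ := (Prime.coprime_iff_not_dvd hp).2 hcon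
  apply hzN
  have : z = (z ^ i) ^ v := by
    rw [← zpow_mul]
    have h1 : i * v = 1 - (p : ℤ) * u := by linarith
    rw [h1, zpow_sub, zpow_mul, zpow_natCast, hzp, one_zpow, zpow_one, inv_one, mul_one]
  rw [this]
  exact N.zpow_mem hi v

lemma tj_card [Finite G] (p : ℕ) [Fact p.Prime] (J N : Subgroup G)
    (hNJ : N ≤ J) (z : G) (hz : z ∈ J) (hzp : z ^ p = 1) (hzN : z ∉ N)
    (h : ∀ g ∈ J, ∃ i : ℤ, ∃ n ∈ N, g = z ^ i * n) : Nat.card J = p * Nat.card N := by
  have hp0 : (0 : ℤ) < p := by exact_mod_cast (Fact.out : p.Prime).pos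
  let F : Fin p × N → J := fun x => ⟨z ^ ((x.1 : ℕ) : ℤ) * (x.2 : G),
    J.mul_mem (J.zpow_mem hz _) (hNJ x.2.2)⟩
  have hF : Function.Bijective F := by
    constructor
    · rintro ⟨i, n⟩ ⟨j, m⟩ hij
      have h1 : z ^ ((i : ℕ) : ℤ) * (n : G) = z ^ ((j : ℕ) : ℤ) * (m : G) :=
        congrArg Subtype.val hij
      have h2 : z ^ (((i : ℕ) : ℤ) - ((j : ℕ) : ℤ)) ∈ N := by
        have h3 : z ^ (((i : ℕ) : ℤ) - ((j : ℕ) : ℤ)) = (m : G) * (n : G)⁻¹ := by
          have h4 : z ^ (-((j : ℕ) : ℤ)) * (z ^ ((i : ℕ) : ℤ) * (n : G)) = m := by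
            rw [h1, ← mul_assoc, ← zpow_add, neg_add_cancel, zpow_zero, one_mul]
          rw [← h4, mul_assoc, mul_inv_cancel_right, ← zpow_add]
          congr 1
          ring
        rw [h3]
        exact N.mul_mem m.2 (N.inv_mem n.2)
      have h5 := tj_zmem hzp hzN _ h2
      have h6 : ((i : ℕ) : ℤ) = ((j : ℕ) : ℤ) := by
        have hi := i.2
        have hj := j.2
        obtain ⟨c, hc⟩ := h5
        have hi' : ((i : ℕ) : ℤ) < p := by exact_mod_cast hi
        have hj' : ((j : ℕ) : ℤ) < p := by exact_mod_cast hj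
        have hi0 : (0 : ℤ) ≤ ((i : ℕ) : ℤ) := by positivity
        have hj0 : (0 : ℤ) ≤ ((j : ℕ) : ℤ) := by positivity
        have hc0 : c = 0 := by
          rcases lt_trichotomy c 0 with h | h | h
          · have : (p : ℤ) * c ≤ -p := by nlinarith
            omega
          · exact h
          · have : (p : ℤ) ≤ p * c := by nlinarith
            omega
        rw [hc0, mul_zero] at hc
        omega
      have h7 : i = j := Fin.ext (by exact_mod_cast h6)
      subst h7
      have h8 : (n : G) = m := mul_left_cancel h1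
      rw [Subtype.ext h8]
    · rintro ⟨g, hg⟩
      obtain ⟨i, n, hn, rfl⟩ := h g hg
      refine ⟨⟨⟨(i % p).toNat, ?_⟩, ⟨n, hn⟩⟩, ?_⟩
      · have := Int.emod_lt_of_pos i hp0
        have h0 := Int.emod_nonneg i hp0.ne'
        omega
      · apply Subtype.ext
        show z ^ (((i % p).toNat : ℕ) : ℤ) * n = z ^ i * n
        have h0 := Int.emod_nonneg i hp0.ne'
        rw [Int.toNat_of_nonneg h0]
        congr 1
        have h1 : i = i % p + p * (i / p) := (Int.emod_add_mul_ediv i p).symm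
        conv_rhs => rw [h1]
        rw [zpow_add, zpow_mul, zpow_natCast, hzp, one_zpow, mul_one]
  rw [← Nat.card_congr (Equiv.ofBijective F hF), Nat.card_prod, Nat.card_eq_fintype_card,
    Fintype.card_fin]

end pure

theorem st_TJ (hRGF : ST_RGF.{u}) (hRQ : ST_RQ.{u}) (hRT : ST_RT.{u}) (hQS : ST_QS.{u}) :
    ST_TJ.{u} := by
  classical
  intro p _ G _ _ f hf J hJc hJp z hz hz1 hfz
  have hrf : RF f := (hRGF p G f hf).rf
  have hzp : z ^ p = 1 := hJp z hz
  have hpp : p.Prime := Fact.out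
  obtain ⟨N, hNJ, hzN, hdec⟩ := tj_compl p J hJc hJp z hz hz1
  have hcardJ := tj_card p J N hNJ z hz hzp hzN hdec
  have hNn : N.Normal := by
    constructor
    intro x hx y
    have hxc : x ∈ Subgroup.center G := hJc (hNJ hx)
    rw [Subgroup.mem_center_iff] at hxc
    rw [hxc y, mul_inv_cancel_right]
    exact hx
  have instQ : Fintype (G ⧸ N) := Fintype.ofFinite _
  obtain ⟨fQ, hfQ, hcs⟩ := hRQ p G f hf N
  obtain ⟨q1, q2, q3, q4⟩ := hQS p G f hrf N fQ hcs
  obtain ⟨q5, q6⟩ := q3 z hzN hfz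
  -- powers of `z`
  have hle : ∀ g : G, g ≠ 1 → f g ≤ x0 f := by
    intro g hg
    unfold x0
    exact Finset.le_sup (f := f) (Finset.mem_filter.2 ⟨Finset.mem_univ _, hg⟩)
  have hpow : ∀ m : ℕ, z ^ m ≠ 1 → f (z ^ m) = x0 f := by
    intro m
    induction m with
    | zero => intro h; exact absurd (pow_zero z) h
    | succ m ih =>
      intro h
      apply le_antisymm (hle _ h)
      by_cases hm : z ^ m = 1
      · rw [pow_succ, hm, one_mul, hfz]
      · rw [pow_succ] at h ⊢
        have := hrf.mul (z ^ m) z hm hz1 h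
        rw [ih hm, hfz, min_self] at this
        exact this
  have hcsJ : ∀ g ∈ J, g ∉ N → cs f N g = x0 f + SI f N := by
    intro g hg hgN
    obtain ⟨i, n, hn, rfl⟩ := hdec g hg
    have hp0 : (0 : ℤ) < p := by exact_mod_cast hpp.pos
    have h0 := Int.emod_nonneg i hp0.ne'
    have hzi : z ^ i = z ^ (i % p).toNat := by
      rw [← zpow_natCast, Int.toNat_of_nonneg h0]
      have h1 : i = i % p + p * (i / p) := (Int.emod_add_mul_ediv i p).symm
      conv_lhs => rw [h1]
      rw [zpow_add, zpow_mul, zpow_natCast, hzp, one_zpow, mul_one]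
    rw [hzi] at hgN ⊢
    have hmN : z ^ (i % p).toNat ∉ N := fun h => hgN (N.mul_mem h hn)
    have hm1 : z ^ (i % p).toNat ≠ 1 := fun h => hmN (by rw [h]; exact N.one_mem)
    have h2 := (q3 _ hmN (hpow _ hm1)).1
    rw [← hcs _ hgN, ← h2]
    congr 2
    rw [QuotientGroup.eq]
    have : (z ^ (i % p).toNat * n)⁻¹ * z ^ (i % p).toNat = n⁻¹ := by group
    rw [this]
    exact N.inv_mem hn
  -- the sum over `J` minus `N`
  have hNcard : (Finset.univ.filter (fun g : G => g ∈ N)).card = Nat.card N := by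
    rw [Nat.card_eq_fintype_card, Fintype.card_subtype]
  have hJcard : (Finset.univ.filter (fun g : G => g ∈ J)).card = Nat.card J := by
    rw [Nat.card_eq_fintype_card, Fintype.card_subtype]
  have hJNcard : (Finset.univ.filter (fun g : G => g ∈ J ∧ g ∉ N)).card + Nat.card N =
      Nat.card J := by
    rw [← hNcard, ← hJcard, ← Finset.card_union_of_disjoint]
    · congr 1
      ext g
      simp only [Finset.mem_union, Finset.mem_filter, Finset.mem_univ, true_and]
      constructor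
      · rintro (h | h)
        · exact h.1
        · exact hNJ h
      · intro h
        by_cases hg : g ∈ N
        · exact Or.inr hg
        · exact Or.inl ⟨h, hg⟩
    · rw [Finset.disjoint_filter]
      intro g _ h1 h2
      exact h1.2 h2
  have hNpos : 0 < Nat.card N := Nat.card_pos
  have hsum : ∑ g ∈ Finset.univ.filter (fun g : G => g ∈ J ∧ g ∉ N), f g =
      (p - 1) * (x0 f + SI f N) := by
    have e1 : Nat.card N * ∑ g ∈ Finset.univ.filter (fun g : G => g ∈ J ∧ g ∉ N), f g =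
        ∑ g ∈ Finset.univ.filter (fun g : G => g ∈ J ∧ g ∉ N), cs f N g := by
      unfold cs
      rw [Finset.sum_comm]
      have e2 : ∀ n ∈ Finset.univ.filter (fun n : G => n ∈ N),
          ∑ g ∈ Finset.univ.filter (fun g : G => g ∈ J ∧ g ∉ N), f (g * n) =
            ∑ g ∈ Finset.univ.filter (fun g : G => g ∈ J ∧ g ∉ N), f g := by
        intro n hn
        have hn' : n ∈ N := (Finset.mem_filter.1 hn).2
        refine Finset.sum_bij (fun g _ => g * n) ?_ ?_ ?_ ?_
        · intro g hg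
          rw [Finset.mem_filter] at hg ⊢
          refine ⟨Finset.mem_univ _, J.mul_mem hg.2.1 (hNJ hn'), fun h => hg.2.2 ?_⟩
          exact (N.mul_mem_cancel_right hn').1 h
        · intro g1 _ g2 _ h
          exact mul_right_cancel h
        · intro g hg
          rw [Finset.mem_filter] at hg
          refine ⟨g * n⁻¹, ?_, by group⟩
          rw [Finset.mem_filter]
          refine ⟨Finset.mem_univ _, J.mul_mem hg.2.1 (J.inv_mem (hNJ hn')), fun h => hg.2.2 ?_⟩
          exact (N.mul_mem_cancel_right (N.inv_mem hn')).1 h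
        · intro g _
          rfl
      rw [Finset.sum_congr rfl e2, Finset.sum_const, hNcard, smul_eq_mul]
    have e3 : ∑ g ∈ Finset.univ.filter (fun g : G => g ∈ J ∧ g ∉ N), cs f N g =
        (Nat.card N * (p - 1)) * (x0 f + SI f N) := by
      rw [Finset.sum_congr rfl (fun g hg => hcsJ g (Finset.mem_filter.1 hg).2.1
        (Finset.mem_filter.1 hg).2.2), Finset.sum_const, smul_eq_mul]
      congr 1
      have hp1 := hpp.one_lt
      have : (Finset.univ.filter (fun g : G => g ∈ J ∧ g ∉ N)).card + Nat.card N =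
          Nat.card N * (p - 1) + Nat.card N := by
        rw [hJNcard, hcardJ]
        obtain ⟨q, rfl⟩ : ∃ q, p = q + 1 := ⟨p - 1, by omega⟩
        rw [Nat.add_sub_cancel]
        ring
      omega
    rw [e3, mul_assoc] at e1
    exact Nat.eq_of_mul_eq_mul_left hNpos e1
  have hSI : SI f J = SI f N + (p - 1) * (x0 f + SI f N) := by
    rw [← hsum]
    unfold SI
    rw [← Finset.sum_union]
    · congr 1
      ext g
      simp only [Finset.mem_union, Finset.mem_filter, Finset.mem_univ, true_and]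
      constructor
      · rintro ⟨h1, h2⟩
        by_cases hg : g ∈ N
        · exact Or.inl ⟨hg, h2⟩
        · exact Or.inr ⟨h1, hg⟩
      · rintro (⟨h1, h2⟩ | ⟨h1, h2⟩)
        · exact ⟨hNJ h1, h2⟩
        · exact ⟨h1, fun h => h2 (by rw [h]; exact N.one_mem)⟩
    · rw [Finset.disjoint_filter]
      intro g _ h1 h2
      exact h2.2 h1.1
  have hSO : SO f N = SO f J + (p - 1) * (x0 f + SI f N) := by
    rw [← hsum]
    unfold SO
    rw [← Finset.sum_union]
    · congr 1
      ext g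
      simp only [Finset.mem_union, Finset.mem_filter, Finset.mem_univ, true_and]
      constructor
      · intro h
        by_cases hg : g ∈ J
        · exact Or.inr ⟨hg, h⟩
        · exact Or.inl hg
      · rintro (h | h)
        · exact fun h1 => h (hNJ h1)
        · exact h.2
    · rw [Finset.disjoint_filter]
      intro g _ h1 h2
      exact h1 h2.1
  -- the class of `z`
  have hζc : (z : G ⧸ N) ∈ Subgroup.center (G ⧸ N) := by
    rw [Subgroup.mem_center_iff]
    intro g
    obtain ⟨g, rfl⟩ := QuotientGroup.mk_surjective g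
    rw [← QuotientGroup.mk_mul, ← QuotientGroup.mk_mul]
    rw [(Subgroup.mem_center_iff.1 (hJc hz)) g]
  have hζ1 : (z : G ⧸ N) ≠ 1 := by
    intro h
    exact hzN ((QuotientGroup.eq_one_iff z).1 h)
  have hζo : orderOf (z : G ⧸ N) = p := by
    apply orderOf_eq_prime _ hζ1
    rw [← QuotientGroup.mk_pow, hzp]
    rfl
  have hcardG : Fintype.card G = Fintype.card (G ⧸ N) * Nat.card N := by
    rw [← Nat.card_eq_fintype_card, ← Nat.card_eq_fintype_card]
    exact Subgroup.card_eq_card_quotient_mul_card_subgroup N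
  rcases hRT p (G ⧸ N) fQ hfQ (z : G ⧸ N) hζc hζo q6 with h | h
  · left
    rw [hcardG, mul_comm]
    have h1 : S1 f + x0 f = Nat.card N * (S1 fQ + x0 fQ) := by
      rw [mul_add, q1, ← q6, q5]
      omega
    rw [h1]
    exact Nat.mul_dvd_mul_left _ h
  · right
    have h1 : ((p : ℤ) - 1) ^ 2 * ((x0 fQ : ℤ) - 1) + ((p : ℤ) - 1) * (x0 fQ : ℤ) <
        (S1 fQ : ℤ) := by
      have hp1 : (((p - 1 : ℕ)) : ℤ) = (p : ℤ) - 1 := by
        rw [Nat.cast_sub hpp.one_lt.le, Nat.cast_one]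
      have h2 : (((p - 1) ^ 2 * (x0 fQ - 1) + (p - 1) * x0 fQ : ℕ) : ℤ) < ((S1 fQ : ℕ) : ℤ) := by
        exact_mod_cast h
      rw [Nat.cast_add, Nat.cast_mul, Nat.cast_mul, Nat.cast_pow, hp1] at h2
      have h3 : (x0 fQ : ℤ) - 1 ≤ (((x0 fQ - 1 : ℕ)) : ℤ) := by omega
      have h4 : ((p : ℤ) - 1) ^ 2 * ((x0 fQ : ℤ) - 1) ≤
          ((p : ℤ) - 1) ^ 2 * (((x0 fQ - 1 : ℕ)) : ℤ) :=
        mul_le_mul_of_nonneg_left h3 (by positivity)
      linarith
    have hp1 : (((p - 1 : ℕ)) : ℤ) = (p : ℤ) - 1 := by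
      rw [Nat.cast_sub hpp.one_lt.le, Nat.cast_one]
    set a : ℤ := (x0 f : ℤ) + (SI f N : ℤ) with ha
    have e1 : (Nat.card N : ℤ) * (x0 fQ : ℤ) = a := by
      rw [← q6, ha]
      exact_mod_cast q5
    have e2 : (Nat.card N : ℤ) * (S1 fQ : ℤ) = (SO f J : ℤ) + ((p : ℤ) - 1) * a := by
      have : ((Nat.card N * S1 fQ : ℕ) : ℤ) = ((SO f J + (p - 1) * (x0 f + SI f N) : ℕ) : ℤ) := by
        rw [q1, hSO]
      rw [Nat.cast_mul, Nat.cast_add, Nat.cast_mul, hp1, Nat.cast_add] at this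
      exact this
    have e3 : (SI f J : ℤ) + (x0 f : ℤ) = (p : ℤ) * a := by
      have : ((SI f J : ℕ) : ℤ) = ((SI f N + (p - 1) * (x0 f + SI f N) : ℕ) : ℤ) := by
        rw [hSI]
      rw [Nat.cast_add, Nat.cast_mul, hp1, Nat.cast_add] at this
      rw [this, ha]
      ring
    have e4 : (Nat.card J : ℤ) = (p : ℤ) * (Nat.card N : ℤ) := by
      rw [hcardJ, Nat.cast_mul]
    have hN0 : (0 : ℤ) < (Nat.card N : ℤ) := by exact_mod_cast hNpos
    have hp0 : (0 : ℤ) < (p : ℤ) := by exact_mod_cast hpp.pos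
    have h5 := mul_lt_mul_of_pos_left h1 hN0
    have h6 : ((p : ℤ) - 1) ^ 2 * (a - (Nat.card N : ℤ)) < (SO f J : ℤ) := by
      have h7 : (Nat.card N : ℤ) * (((p : ℤ) - 1) ^ 2 * ((x0 fQ : ℤ) - 1) +
          ((p : ℤ) - 1) * (x0 fQ : ℤ)) =
          ((p : ℤ) - 1) ^ 2 * (a - (Nat.card N : ℤ)) + ((p : ℤ) - 1) * a := by
        rw [← e1]
        ring
      rw [h7, e2] at h5
      linarith
    have h8 := mul_lt_mul_of_pos_left h6 hp0
    have h9 : ((p : ℤ) - 1) ^ 2 * ((SI f J : ℤ) + (x0 f : ℤ) - (Nat.card J : ℤ)) =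
        (p : ℤ) * (((p : ℤ) - 1) ^ 2 * (a - (Nat.card N : ℤ))) := by
      rw [e3, e4]
      ring
    rw [h9]
    exact h8

end Pool.Agent.Helper20.NP
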